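import Mathlib
set_option autoImplicit false
open Finset
namespace Pool.Agent.H.MP_14caef_al

def L (k d : ℕ) : Finset (Fin (k + 1) → ℕ) := piAntidiag univ d

def T (k d : ℕ) : Finset (Fin (k + 1) → ℕ) := (range (d + 1)).biUnion (L k)

lemma mL {k d : ℕ} {a : Fin (k + 1) → ℕ} : a ∈ L k d ↔ ∑ i, a i = d := by simp [L]

lemma mT {k d : ℕ} {a : Fin (k + 1) → ℕ} : a ∈ T k d ↔ ∑ i, a i ≤ d := by
  simp [T, mL]

lemma cL (k d : ℕ) : (L k d).card = (d + k).choose k := by
  have := card_finsuppAntidiag_nat_eq_choose (s := (univ : Finset (Fin (k + 1)))) d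
  rw [finsuppAntidiag, card_map, card_attach, card_univ, Fintype.card_fin] at this
  rw [L, this, ← Nat.choose_symm_add, show k + 1 + d - 1 = d + k by omega]

lemma sT (k d : ℕ) (F : ℕ → ℝ) :
    ∑ y ∈ T k d, F (∑ i, y i) = ∑ j ∈ range (d + 1), ((j + k).choose k : ℝ) * F j := by
  rw [T, sum_biUnion fun a _ b _ h => disjoint_left.2 fun x h1 h2 => h ((mL.1 h1).symm.trans (mL.1 h2))]
  refine sum_congr rfl fun j _ => ?_
  rw [sum_congr rfl fun y hy => by rw [mL.1 hy], sum_const, cL, nsmul_eq_mul]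

lemma cT (k d : ℕ) : (T k d).card = (d + k + 1).choose (k + 1) := by
  have := sT k d fun _ => 1
  simp only [sum_const, nsmul_eq_mul, mul_one] at this
  rw [← Nat.sum_range_add_choose]
  exact_mod_cast this

lemma rc (k d : ℕ) : (d + k).choose k * (d + 1 + k) = (d + 1 + k).choose k * (d + 1) := by
  have := Nat.choose_mul_succ_eq (d + k) k
  rwa [show d + k + 1 - k = d + 1 by omega, show d + k + 1 = d + 1 + k by omega] at this

lemma sw (k : ℕ) (hk : 1 ≤ k) (d : ℕ) :
    ∑ y ∈ T k d, (k : ℝ) / ((∑ i, y i : ℕ) + k) = (d + k).choose k := by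
  rw [sT k d fun j => (k : ℝ) / (j + k)]
  have k0 : (0 : ℝ) < k := by exact_mod_cast hk
  induction d with
  | zero => simp [k0.ne']
  | succ d ih =>
    rw [sum_range_succ, ih]
    have : ((d + k).choose k : ℝ) * (d + 1 + k) = (d + 1 + k).choose k * (d + 1) := by
      exact_mod_cast rc k d
    push_cast
    field_simp
    linear_combination this

lemma lym (k : ℕ) (hk : 1 ≤ k) (D : Finset (Fin (k + 1) → ℕ)) (hD : ∀ a b, a + b ∈ D → a ∈ D) :
    ((D.filter fun a => ∀ i, a + Pi.single i 1 ∉ D).card : ℝ) ≤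
      ∑ y ∈ D, (k : ℝ) / ((∑ i, y i : ℕ) + k) := by
  have k0 : (0 : ℝ) < k := by exact_mod_cast hk
  have h1 (i : Fin (k + 1)) : ∑ y ∈ D, (y i : ℝ) / ((∑ i, y i : ℕ) + k) ≤
      ∑ z ∈ D.filter fun a => ¬∀ i, a + Pi.single i 1 ∉ D, (z i + 1 : ℝ) / ((∑ i, z i : ℕ) + 1 + k) := by
    rw [← sum_filter_of_ne (p := fun y => y i ≠ 0) fun y _ h q => h (by simp [q])]
    have e (y : Fin (k + 1) → ℕ) (h : y i ≠ 0) : y - Pi.single i 1 + Pi.single i 1 = y :=
      funext fun j => by by_cases q : j = i <;> simp [q]; omega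
    refine le_of_eq_of_le (sum_bij' (t := D.filter fun z => z + Pi.single i 1 ∈ D)
      (fun y _ => y - Pi.single i 1) (fun z _ => z + Pi.single i 1) (fun y hy => ?_) (fun z hz => ?_)
      (fun y hy => e y (mem_filter.1 hy).2) (fun z _ => by simp) fun y hy => ?_)
      (sum_le_sum_of_subset_of_nonneg (fun z hz => ?_) fun _ _ _ => by positivity)
    · obtain ⟨h, q⟩ := mem_filter.1 hy
      rw [← e y q] at h
      exact mem_filter.2 ⟨hD _ _ h, h⟩
    · exact mem_filter.2 ⟨(mem_filter.1 hz).2, by simp⟩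
    · obtain ⟨z, rfl⟩ : ∃ z : Fin (k + 1) → ℕ, y = z + Pi.single i 1 :=
        ⟨_, (e y (mem_filter.1 hy).2).symm⟩
      simp [sum_add_distrib]
    · exact mem_filter.2 ⟨(mem_filter.1 hz).1, fun q => q i (mem_filter.1 hz).2⟩
  have h2 := sum_le_sum fun i (_ : i ∈ univ) => h1 i
  rw [sum_comm, sum_comm (s := univ), sum_congr rfl (g := fun _ => (1 : ℝ)) (s₁ := D.filter _)
    fun z _ => by
      rw [← sum_div, sum_add_distrib]
      simp only [sum_const, card_univ, Fintype.card_fin, nsmul_eq_mul]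
      push_cast
      field_simp
      ring] at h2
  have h3 := card_filter_add_card_filter_not (s := D) fun a => ∀ i, a + Pi.single i 1 ∉ D
  have h4 : ∑ y ∈ D, (k : ℝ) / ((∑ i, y i : ℕ) + k) + ∑ y ∈ D, ∑ i, (y i : ℝ) / ((∑ i, y i : ℕ) + k) =
      D.card := by
    rw [← sum_add_distrib, card_eq_sum_ones, Nat.cast_sum]
    refine sum_congr rfl fun y _ => ?_
    rw [← sum_div, ← Nat.cast_sum]
    field_simp
    simp [add_comm]
  rw [sum_const, nsmul_eq_mul, mul_one] at h2
  rw [← h3, Nat.cast_add] at h4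
  linarith

lemma miss (k : ℕ) (hk : 1 ≤ k) (m p q : ℕ) (m0 : 0 < m) (g : Fin (k + 1) → ℕ)
    (h : ∀ a b, ∑ i, a i ≤ p + q → ∑ i, b i ≤ p + q → a ⬝ᵥ g ≡ b ⬝ᵥ g [MOD m] → a = b) :
    (T k p).card + 2 * q * (p + k).choose k ≤ m := by
  have : NeZero m := ⟨m0.ne'⟩
  let W (i : Fin (k + 1)) : Finset ((Fin (k + 1) → ℕ) × (Fin (k + 1) → ℕ)) :=
    ((L k p).image fun a => Function.update a i 0) ×ˢ ((Icc 1 q).image (Pi.single i))
  have cW (i) : (W i).card = q * (p + k).choose k := by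
    rw [card_product, card_image_of_injective _ (Pi.single_injective i), card_image_of_injOn, cL,
      mul_comm]
    · simp
    intro a ha b hb e
    have e1 (j) (hj : j ≠ i) : a j = b j := by simpa [hj] using congrFun e j
    have e2 := (mL.1 ha).trans (mL.1 hb).symm
    rw [← add_sum_erase _ _ (mem_univ i), ← add_sum_erase _ b (mem_univ i),
      sum_congr rfl fun j hj => e1 j (mem_erase.1 hj).1] at e2
    exact funext fun j => if hj : j = i then hj ▸ Nat.add_right_cancel e2 else e1 j hj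
  have mW {i x} (hx : x ∈ W i) : (∑ j, x.1 j ≤ p ∧ ∑ j, x.2 j ≤ q ∧ ∀ j, x.1 j = 0 ∨ x.2 j = 0) ∧
      x.2 i ≠ 0 ∧ ∀ j, j ≠ i → x.2 j = 0 := by
    obtain ⟨a, b⟩ := x
    obtain ⟨h1, h2⟩ := mem_product.1 hx
    obtain ⟨a, ha, rfl⟩ := mem_image.1 h1
    obtain ⟨c, hc, rfl⟩ := mem_image.1 h2
    rw [mem_Icc] at hc
    refine ⟨⟨(sum_le_sum fun j _ => ?_).trans (mL.1 ha).le, by simpa using hc.2, fun j => ?_⟩,
      by simp; omega, fun j hj => by simp [hj]⟩ <;> by_cases z : j = i <;> simp [z]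
  have ne : (0 : Fin (k + 1)) ≠ Fin.last k := fun z => by
    have := congrArg Fin.val z
    simp at this
    omega
  have c : (T k p ×ˢ {0} ∪ (W 0 ∪ W (Fin.last k))).card = (T k p).card + 2 * q * (p + k).choose k := by
    rw [card_union_of_disjoint, card_union_of_disjoint, cW, cW, card_product, card_singleton]
    · ring
    · exact disjoint_left.2 fun x h1 h2 => (mW h1).2.1 ((mW h2).2.2 _ ne)
    · refine disjoint_left.2 fun x h1 h2 => ?_
      have := mem_singleton.1 (mem_product.1 h1).2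
      rcases mem_union.1 h2 with h2 | h2 <;> exact (mW h2).2.1 (by simp [this])
  have P (x) (hx : x ∈ T k p ×ˢ {0} ∪ (W 0 ∪ W (Fin.last k))) :
      ∑ j, x.1 j ≤ p ∧ ∑ j, x.2 j ≤ q ∧ ∀ j, x.1 j = 0 ∨ x.2 j = 0 := by
    rcases mem_union.1 hx with h1 | h1
    · have := mem_singleton.1 (mem_product.1 h1).2
      exact ⟨mT.1 (mem_product.1 h1).1, by simp [this], by simp [this]⟩
    · exact (mem_union.1 h1).elim (fun h => (mW h).1) fun h => (mW h).1
  rw [← c, ← ZMod.card m, ← card_univ]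
  refine card_le_card_of_injOn (fun x => ((x.1 ⬝ᵥ g : ℕ) - (x.2 ⬝ᵥ g : ℕ) : ZMod m))
    (fun _ _ => mem_univ _) fun x hx y hy e => ?_
  obtain ⟨x1, x2, x3⟩ := P x hx
  obtain ⟨y1, y2, y3⟩ := P y hy
  have := h (x.1 + y.2) (y.1 + x.2) (by simp only [Pi.add_apply, sum_add_distrib]; omega)
    (by simp only [Pi.add_apply, sum_add_distrib]; omega) (by
      rw [← ZMod.natCast_eq_natCast_iff, add_dotProduct, add_dotProduct, Nat.cast_add, Nat.cast_add]
      linear_combination e)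
  refine Prod.ext (funext fun j => ?_) (funext fun j => ?_) <;>
  · have := congrFun this j
    have := x3 j
    have := y3 j
    simp only [Pi.add_apply] at *
    omega

lemma gr (k p s : ℕ) : p * (p + s + k).choose k ≤ p * (p + k).choose k + s * k * (p + s + k).choose k := by
  induction s with
  | zero => simp
  | succ s ih =>
    have h1 := rc k (p + s)
    have h2 : (p + s + k).choose k ≤ (p + s + 1 + k).choose k := Nat.choose_le_choose k (by omega)
    rw [← add_assoc]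
    obtain ⟨d, hd⟩ := Nat.exists_eq_add_of_le h2
    rw [hd] at h1 ⊢
    generalize (p + s + k).choose k = x at *
    nlinarith [Nat.zero_le (s * k * d), Nat.zero_le (d * s), Nat.zero_le (k * d)]

theorem comb (k : ℕ) (hk : 1 ≤ k) : ∃ R, ∀ r, R ≤ r → ∀ (m : ℕ) (g : Fin (k + 1) → ℕ)
    (D : Finset (Fin (k + 1) → ℕ)), 0 < m → m < (r + 1 + k + 1).choose (k + 1) →
    (∀ a b, a + b ∈ D → a ∈ D) → (∀ a ∈ D, ∀ b ∈ D, a ⬝ᵥ g ≡ b ⬝ᵥ g [MOD m] → a = b) →
    (D.filter fun a => ∀ i, a + Pi.single i 1 ∉ D).card < (r + k).choose k := by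
  obtain ⟨C, hC⟩ : ∃ C, C = (k + 1).factorial * (62 * k) ^ (k + 1) + 1 := ⟨_, rfl⟩
  refine ⟨30 * k * C, fun r hr m g D m0 hm h1 h2 => ?_⟩
  have k0 : (0 : ℝ) < k := by exact_mod_cast hk
  obtain ⟨u, hu⟩ : ∃ u, u = (r + 1) / (30 * k) := ⟨_, rfl⟩
  have u1 : C ≤ u := hu ▸ (Nat.le_div_iff_mul_le (by omega)).2 (by nlinarith)
  have u2 : u * (30 * k) ≤ r + 1 := hu ▸ Nat.div_mul_le_self _ _
  have u3 : r + 1 < 30 * k * (u + 1) := hu ▸ Nat.lt_mul_div_succ _ (by omega)
  have u4 : 1 ≤ u := by omega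
  obtain ⟨p, hp⟩ : ∃ p, r + 1 = p + 6 * u := ⟨r + 1 - 6 * u, by
    have : 6 * u ≤ r + 1 := by nlinarith
    omega⟩
  have p1 : 24 * u * k ≤ p := by nlinarith
  obtain ⟨x, x1, x2⟩ : ∃ x, ∑ i, x i ≤ p + 4 * u ∧ x ∉ D := by
    by_contra! q
    have a1 := miss k hk m p (4 * u) m0 g fun a b ha hb => h2 a (q a ha) b (q b hb)
    have a2 := gr k p (6 * u)
    have a3 : (r + 1 + k + 1).choose (k + 1) ≤ (T k p).card + 6 * u * (p + 6 * u + k).choose k := by
      rw [cT, ← Nat.sum_range_add_choose, ← Nat.sum_range_add_choose, hp,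
        show p + 6 * u + 1 = p + 1 + 6 * u by omega, sum_range_add]
      refine Nat.add_le_add_left ((sum_le_card_nsmul _ _ _ fun j hj => ?_).trans (by simp; rfl)) _
      exact Nat.choose_le_choose k (by have := mem_range.1 hj; omega)
    generalize (p + 6 * u + k).choose k = y at *
    generalize (p + k).choose k = z at *
    have a4 : 4 * z < 3 * y := by nlinarith
    have a5 := Nat.mul_le_mul_right y p1
    have a6 := Nat.mul_lt_mul_of_pos_left a4 (show 0 < p by nlinarith)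
    nlinarith
  have c1 : D.card ≤ m := by
    rw [← card_range m]
    exact card_le_card_of_injOn (fun a => a ⬝ᵥ g % m) (fun a _ => mem_range.2 (Nat.mod_lt _ m0))
      fun a ha b hb e => h2 a ha b hb e
  obtain ⟨w, hw⟩ : ∃ w : ℝ, w = k / ((r + 1 : ℕ) + k) := ⟨_, rfl⟩
  have w0 : 0 < w := by rw [hw]; positivity
  let f (y : Fin (k + 1) → ℕ) : ℝ := k / ((∑ i, y i : ℕ) + k) - w
  have fp (y : Fin (k + 1) → ℕ) (h : ∑ i, y i ≤ r + 1) : 0 ≤ f y := by
    simp only [f, hw, sub_nonneg]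
    gcongr
  have fn (y : Fin (k + 1) → ℕ) (h : r + 1 ≤ ∑ i, y i) : f y ≤ 0 := by
    simp only [f, hw, sub_nonpos]
    gcongr
  let U := (T k u).image (x + ·)
  have hU : U ⊆ T k (r + 1) := fun y hy => by
    obtain ⟨z, hz, rfl⟩ := mem_image.1 hy
    have := mT.1 hz
    rw [mT]
    simp only [Pi.add_apply, sum_add_distrib]
    omega
  have s1 : ∑ y ∈ D, f y ≤ ∑ y ∈ T k (r + 1) \ U, f y := by
    rw [← sum_filter_add_sum_filter_not D (· ∈ T k (r + 1))]
    refine (add_le_of_nonpos_right (sum_nonpos fun y hy => fn y ?_)).trans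
      (sum_le_sum_of_subset_of_nonneg (fun y hy => ?_) fun y hy _ => fp y (mT.1 (mem_sdiff.1 hy).1))
    · exact (not_le.1 (mt mT.2 (mem_filter.1 hy).2)).le
    · refine mem_sdiff.2 ⟨(mem_filter.1 hy).2, fun q => ?_⟩
      obtain ⟨z, -, rfl⟩ := mem_image.1 q
      exact x2 (h1 _ _ (mem_filter.1 hy).1)
  have s2 : (U.card : ℝ) * (w * u / ((r + 1 : ℕ) + k)) ≤ ∑ y ∈ U, f y := by
    rw [← nsmul_eq_mul]
    refine card_nsmul_le_sum _ _ _ fun y hy => ?_
    obtain ⟨z, hz, rfl⟩ := mem_image.1 hy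
    have b1 := mT.1 hz
    have b2 : ((∑ i, (x + z) i : ℕ) : ℝ) + u ≤ (r + 1 : ℕ) := by
      simp only [Pi.add_apply, sum_add_distrib]
      exact_mod_cast (by omega : ∑ i, x i + ∑ i, z i + u ≤ r + 1)
    simp only [f, hw]
    generalize ((∑ i, (x + z) i : ℕ)) = d at *
    generalize (r + 1 : ℕ) = s at *
    have d0 : (0 : ℝ) ≤ d := d.cast_nonneg
    have d1 : (0 : ℝ) ≤ u := u.cast_nonneg
    rw [div_sub_div _ _ (by positivity) (by positivity), div_mul_eq_mul_div, div_div,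
      div_le_div_iff₀ (by positivity) (by positivity)]
    have e1 : (0 : ℝ) < s + k := by positivity
    have e2 : (k : ℝ) * u * (d + k) ≤ k * (s - d) * (s + k) := by
      exact mul_le_mul (mul_le_mul_of_nonneg_left (by linarith) k0.le) (by linarith) (by positivity)
        (mul_nonneg k0.le (by linarith))
    nlinarith [mul_le_mul_of_nonneg_right e2 e1.le]
  have s3 := sum_sdiff hU (f := f)
  have s4 := lym k hk D h1
  have s5 := sw k hk (r + 1)
  simp only [f, sum_sub_distrib, sum_const, nsmul_eq_mul] at s1 s2 s3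
  have s6 : (D.card : ℝ) * w ≤ (T k (r + 1)).card * w := by
    rw [cT]
    gcongr
    omega
  have s8 : ((r + 1 + k).choose k : ℝ) - (r + k).choose k = (r + 1 + k).choose k * w := by
    have : ((r + k).choose k : ℝ) * (r + 1 + k) = (r + 1 + k).choose k * (r + 1) := by
      exact_mod_cast rc k r
    rw [hw]
    push_cast
    field_simp
    linear_combination -this
  have s9 : ((r + 1 + k).choose k : ℝ) * w < U.card * (w * u / ((r + 1 : ℕ) + k)) := by
    rw [card_image_of_injective _ (add_right_injective x), cT, ← mul_div_assoc,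
      lt_div_iff₀ (by positivity), mul_right_comm, mul_comm w, ← mul_assoc]
    refine mul_lt_mul_of_pos_right ?_ w0
    have t1 := Nat.pow_le_choose (α := ℝ) (k + 1) (u + k + 1)
    rw [div_le_iff₀ (by positivity)] at t1
    have t2 : u ^ (k + 1) ≤ (u + k + 1).choose (k + 1) * (k + 1).factorial :=
      (Nat.pow_le_pow_left (show u ≤ u + k + 1 + 1 - (k + 1) by omega) _).trans (by exact_mod_cast t1)
    have t3 : (r + 1 + k).choose k * (r + 1 + k) ≤ (62 * k) ^ (k + 1) * u ^ (k + 1) := by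
      rw [← mul_pow]
      exact (Nat.mul_le_mul_right _ (Nat.choose_le_pow _ _)).trans
        ((pow_succ _ _).ge.trans (Nat.pow_le_pow_left (by nlinarith) _))
    have t4 := Nat.choose_pos (show k + 1 ≤ u + k + 1 by omega)
    have t5 : (r + 1 + k).choose k * (r + 1 + k) < (u + k + 1).choose (k + 1) * u := by
      have := Nat.mul_le_mul_left ((62 * k) ^ (k + 1)) t2
      have := Nat.mul_le_mul_left ((u + k + 1).choose (k + 1)) u1
      rw [hC] at this
      nlinarith
    exact_mod_cast t5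
  rw [← @Nat.cast_lt ℝ]
  linarith

end Pool.Agent.H.MP_14caef_al
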